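import Mathlib
import Pool.Agent.Helper19.BS.Defs

set_option autoImplicit false

open AlgebraicGeometry CategoryTheory Pool.Agent.Helper19.BS

namespace Pool.Agent.Helper63.PPF

/-- Contravariant functoriality for spectra of commutative rings. -/
structure RingFunctorial (T : MotTheory) : Prop where
  id : ∀ (A : Type) [CommRing A] (k w : ℤ) (u : T.H (Sp A) k w), T.res (RingHom.id A) k w u = u
  comp : ∀ (A B C : Type) [CommRing A] [CommRing B] [CommRing C] (f : A →+* B) (g : B →+* C)
    (k w : ℤ) (u : T.H (Sp A) k w), T.res (g.comp f) k w u = T.res g k w (T.res f k w u)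

/-- The groups of a product of two rings are the products of the groups. -/
def Additive (T : MotTheory) : Prop :=
  ∀ (A B : Type) [CommRing A] [CommRing B] (k w : ℤ), Function.Bijective
    (fun u : T.H (Sp (A × B)) k w =>
      (T.res (RingHom.fst A B) k w u, T.res (RingHom.snd A B) k w u))

/-- A class over `A_P` comes from some `A[1/s]`, `s ∉ P`. -/
def LocalSurj (T : MotTheory) : Prop :=
  ∀ (A : Type) [CommRing A] (P : Ideal A) [P.IsPrime] (k w : ℤ)
    (v : T.H (Sp (Localization.AtPrime P)) k w), ∃ (s : A) (_ : s ∉ P)
      (f : Localization.Away s →+* Localization.AtPrime P),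
      f.comp (algebraMap A (Localization.Away s)) = algebraMap A (Localization.AtPrime P) ∧
      ∃ u, T.res f k w u = v

/-- A class over `A` which vanishes over `A_P` vanishes over some `A[1/s]`, `s ∉ P`. -/
def LocalInj (T : MotTheory) : Prop :=
  ∀ (A : Type) [CommRing A] (P : Ideal A) [P.IsPrime] (k w : ℤ) (u : T.H (Sp A) k w),
    T.res (algebraMap A (Localization.AtPrime P)) k w u = 0 →
      ∃ s : A, s ∉ P ∧ T.res (algebraMap A (Localization.Away s)) k w u = 0

/-- Continuity: the groups of the localisation `A_P` at a prime ideal are the direct limit of the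
groups of the rings `A[1/s]`, `s ∉ P`. -/
structure LocalContinuity (T : MotTheory) : Prop where
  surj : LocalSurj T
  inj : LocalInj T

/-- `F` is an algebraic extension of a finite field: every element lies in a finite subfield. -/
def OverFinite (F : Type) [Field F] : Prop :=
  ∀ x : F, ∃ K : Subfield F, Finite K ∧ x ∈ K

/-- Quillen's theorem: the rational cohomology of an algebraic extension of a finite field
vanishes in all positive weights. -/
def Quillen (T : MotTheory) : Prop :=
  ∀ (F : Type) [Field F], OverFinite F → ∀ k w : ℤ, 0 < w → Subsingleton (T.H (Sp F) k w)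

/-- The known properties of the groups `H^k(Spec A, ℚ(w)) = K_{2w-k}(A)_ℚ^{(w)}` (algebraic
K-theory of commutative rings, weight `w` part for the Adams operations) that are used. -/
structure KTheoretic (T : MotTheory) : Prop where
  functorial : RingFunctorial T
  additive : Additive T
  continuity : LocalContinuity T
  quillen : Quillen T

/-- The product of all prime fields `𝔽_2 × 𝔽_3 × 𝔽_5 × 𝔽_7 × ⋯`. -/
abbrev PrimeProduct : Type := ∀ p : Nat.Primes, ZMod p

/-- `H^k(Spec A, ℚ(w)) = 0`. -/
def RingVanish (T : MotTheory) (A : Type) [CommRing A] (k w : ℤ) : Prop :=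
  Subsingleton (T.H (Sp A) k w)

/-- `H^k(Spec A, ℚ(w))` has dimension less than the continuum. -/
def RingSmall (T : MotTheory) (A : Type) [CommRing A] (k w : ℤ) : Prop :=
  Module.rank ℚ (T.H (Sp A) k w) < Cardinal.continuum

/-- `H^k(Spec ∏ F_i, ℚ(w)) = 0` for every family of fields `F_i` of characteristic zero or
algebraic over a finite field which contains only finitely many members of each positive
characteristic. -/
def AllProducts (T : MotTheory) (k w : ℤ) : Prop :=
  ∀ (I : Type) (F : I → Type) [∀ i, Field (F i)], (∀ i, CharZero (F i) ∨ OverFinite (F i)) →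
    (∀ p : ℕ, p.Prime → {i | CharP (F i) p}.Finite) → RingVanish T (∀ i, F i) k w

/-- an infinite family of algebraically closed fields which contains only finitely many members
of each positive characteristic, for example the algebraic closures of the prime fields `𝔽_p` for
the primes `p` in an infinite set, or a constant family in characteristic zero -/
def ClosedFamily (I : Type) (F : I → Type) [∀ i, Field (F i)] : Prop :=
  Infinite I ∧ (∀ i, IsAlgClosed (F i)) ∧ ∀ p : ℕ, p.Prime → {i | CharP (F i) p}.Finite

/-- `H^k(Spec ∏ F_i, ℚ(w)) = 0` for one closed family. -/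
def SomeClosedProduct (T : MotTheory) (k w : ℤ) : Prop :=
  ∃ (I : Type) (F : I → Type) (_ : ∀ i, Field (F i)), ClosedFamily I F ∧
    RingVanish T (∀ i, F i) k w

/-- `H^k(Spec ∏ F_i, ℚ(w))` has dimension less than the continuum for one closed family. -/
def SmallClosedProduct (T : MotTheory) (k w : ℤ) : Prop :=
  ∃ (I : Type) (F : I → Type) (_ : ∀ i, Field (F i)), ClosedFamily I F ∧
    RingSmall T (∀ i, F i) k w

/-- `H^k(Spec ∏ F_i, ℚ(w))` has dimension less than the continuum for one infinite family of
fields which contains only finitely many members of each positive characteristic, for example for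
the family of all prime fields `𝔽_p` or a constant family in characteristic zero. -/
def SmallProduct (T : MotTheory) (k w : ℤ) : Prop :=
  ∃ (I : Type) (F : I → Type) (_ : ∀ i, Field (F i)), Infinite I ∧
    (∀ p : ℕ, p.Prime → {i | CharP (F i) p}.Finite) ∧ RingSmall T (∀ i, F i) k w

end Pool.Agent.Helper63.PPF
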