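import Mathlib
import Pool.Agent.Helper63.PPF.Defs

/-! Cohomology of absolutely flat rings: a class vanishes if it vanishes at all residue fields, and
every class of a residue field lifts. -/

set_option autoImplicit false

open AlgebraicGeometry CategoryTheory Pool.Agent.Helper19.BS

namespace Pool.Agent.Helper63.PPF

/-- absolutely flat (von Neumann regular) rings -/
def VNR (A : Type) [CommRing A] : Prop := ∀ a : A, ∃ b : A, a * a * b = a

theorem VNR.of_surj {A B : Type} [CommRing A] [CommRing B] (h : VNR A) (f : A →+* B)
    (hf : Function.Surjective f) : VNR B := by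
  intro x
  obtain ⟨a, rfl⟩ := hf x
  obtain ⟨b, hb⟩ := h a
  exact ⟨f b, by rw [← map_mul, ← map_mul, hb]⟩

theorem vnr_pi {I : Type} (F : I → Type) [∀ i, Field (F i)] : VNR (∀ i, F i) := by
  intro a
  refine ⟨fun i => (a i)⁻¹, funext fun i => ?_⟩
  simp only [Pi.mul_apply]
  by_cases h : a i = 0
  · rw [h]; simp
  · field_simp

/-- the quotient map -/
abbrev qm (B : Type) [CommRing B] (e : B) : B →+* B ⧸ Ideal.span {e} := Ideal.Quotient.mk _

theorem qm_eq_zero (B : Type) [CommRing B] (e x : B) (h : e ∣ x) : qm B e x = 0 := by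
  rw [Ideal.Quotient.eq_zero_iff_mem, Ideal.mem_span_singleton]
  exact h

theorem split_bijective (B : Type) [CommRing B] {e : B} (he : e * e = e) :
    Function.Bijective ((qm B (1 - e)).prod (qm B e)) := by
  constructor
  · rw [injective_iff_map_eq_zero]
    intro x hx
    have h1 : qm B (1 - e) x = 0 := congrArg Prod.fst hx
    have h2 : qm B e x = 0 := congrArg Prod.snd hx
    rw [Ideal.Quotient.eq_zero_iff_mem, Ideal.mem_span_singleton] at h1 h2
    obtain ⟨a, ha⟩ := h1
    obtain ⟨b, hb⟩ := h2
    have h3 : e * x = 0 := by rw [ha]; linear_combination (-a) * he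
    have h4 : (1 - e) * x = 0 := by rw [hb]; linear_combination (-b) * he
    linear_combination h3 + h4
  · rintro ⟨x, y⟩
    obtain ⟨x, rfl⟩ := Ideal.Quotient.mk_surjective x
    obtain ⟨y, rfl⟩ := Ideal.Quotient.mk_surjective y
    refine ⟨e * x + (1 - e) * y, Prod.ext ?_ ?_⟩
    · show qm B (1 - e) (e * x + (1 - e) * y) = qm B (1 - e) x
      rw [← sub_eq_zero, ← map_sub]
      exact qm_eq_zero B _ _ ⟨y - x, by ring⟩
    · show qm B e (e * x + (1 - e) * y) = qm B e y
      rw [← sub_eq_zero, ← map_sub]
      exact qm_eq_zero B _ _ ⟨x - y, by ring⟩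

variable {T : MotTheory} (hK : KTheoretic T)

include hK

theorem res_comp_apply {A B C : Type} [CommRing A] [CommRing B] [CommRing C] {f : A →+* B}
    {g : B →+* C} {h : A →+* C} (e : g.comp f = h) (k w : ℤ) (u : T.H (Sp A) k w) :
    T.res g k w (T.res f k w u) = T.res h k w u := by
  rw [← e, hK.functorial.comp]

theorem res_bijective {A B : Type} [CommRing A] [CommRing B] (e : A ≃+* B) (k w : ℤ) :
    Function.Bijective (T.res (e : A →+* B) k w) := by
  refine ⟨?_, ?_⟩
  · refine Function.LeftInverse.injective (g := T.res (e.symm : B →+* A) k w) fun u => ?_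
    rw [res_comp_apply hK (h := RingHom.id A) (by ext x; simp), hK.functorial.id]
  · refine Function.RightInverse.surjective (g := T.res (e.symm : B →+* A) k w) fun u => ?_
    rw [res_comp_apply hK (h := RingHom.id B) (by ext x; simp), hK.functorial.id]

theorem split (B : Type) [CommRing B] {e : B} (he : e * e = e) (k w : ℤ) :
    Function.Bijective (fun u : T.H (Sp B) k w =>
      (T.res (qm B (1 - e)) k w u, T.res (qm B e) k w u)) := by
  let s : B ≃+* (B ⧸ Ideal.span {1 - e}) × (B ⧸ Ideal.span {e}) :=
    RingEquiv.ofBijective _ (split_bijective B he)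
  have h1 := res_bijective hK s k w
  have h2 := hK.additive (B ⧸ Ideal.span {1 - e}) (B ⧸ Ideal.span {e}) k w
  have h3 := h2.comp h1
  convert h3 using 1
  funext u
  simp only [Function.comp_apply]
  rw [res_comp_apply hK (h := qm B (1 - e)) (by ext x; rfl),
    res_comp_apply hK (h := qm B e) (by ext x; rfl)]

theorem glue (B : Type) [CommRing B] {e : B} (he : e * e = e) {k w : ℤ} {u : T.H (Sp B) k w}
    (h1 : T.res (qm B (1 - e)) k w u = 0) (h2 : T.res (qm B e) k w u = 0) : u = 0 := by
  apply (split hK B he k w).1
  simp only [h1, h2, map_zero]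

theorem lift_class (B : Type) [CommRing B] {e : B} (he : e * e = e) {k w : ℤ}
    (v : T.H (Sp (B ⧸ Ideal.span {1 - e})) k w) : ∃ u, T.res (qm B (1 - e)) k w u = v := by
  obtain ⟨u, hu⟩ := (split hK B he k w).2 (v, 0)
  exact ⟨u, congrArg Prod.fst hu⟩

/-- The group of the zero ring is zero. -/
theorem zero_ring (B : Type) [CommRing B] [Subsingleton B] {k w : ℤ} (u : T.H (Sp B) k w) :
    u = 0 := by
  obtain ⟨v, hv⟩ := (hK.additive B B k w).2 (u, 0)
  have h1 : T.res (RingHom.fst B B) k w v = u := congrArg Prod.fst hv
  have h2 : T.res (RingHom.snd B B) k w v = 0 := congrArg Prod.snd hv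
  rw [← h1, ← h2]
  congr 1
  congr 1
  ext x
  exact Subsingleton.elim _ _

/-- A class over an absolutely flat ring which vanishes at all maximal ideals is zero. -/
theorem eq_zero_of_local {A : Type} [CommRing A] {k w : ℤ} (u : T.H (Sp A) k w)
    (h : ∀ (P : Ideal A) [P.IsMaximal], T.res (algebraMap A (Localization.AtPrime P)) k w u = 0)
    (hA : VNR A) : u = 0 := by
  let J : Ideal A :=
    { carrier := {a | ∀ (B : Type) [CommRing B] (f : A →+* B), VNR B → IsUnit (f a) →
        T.res f k w u = 0}
      add_mem' := by
        intro a b ha hb B _ f hB hab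
        obtain ⟨c, hc⟩ := hB (f a)
        have he : (f a * c) * (f a * c) = f a * c := by linear_combination c * hc
        refine glue hK B he ?_ ?_
        · rw [res_comp_apply hK rfl]
          refine ha _ _ (hB.of_surj _ Ideal.Quotient.mk_surjective) ?_
          refine IsUnit.of_mul_eq_one (qm B (1 - f a * c) c) ?_
          show qm B (1 - f a * c) (f a) * qm B (1 - f a * c) c = 1
          rw [← map_mul, ← map_one (qm B (1 - f a * c)), ← sub_eq_zero, ← map_sub]
          exact qm_eq_zero B _ _ ⟨-1, by ring⟩
        · rw [res_comp_apply hK rfl]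
          refine hb _ _ (hB.of_surj _ Ideal.Quotient.mk_surjective) ?_
          have h0 : qm B (f a * c) (f a) = 0 :=
            qm_eq_zero B _ _ ⟨f a, by linear_combination -hc⟩
          have h1 : ((qm B (f a * c)).comp f) b = qm B (f a * c) (f (a + b)) := by
            rw [map_add, map_add, h0, zero_add]
            rfl
          rw [h1]
          exact hab.map _
      zero_mem' := by
        intro B _ f _ h0
        rw [map_zero, isUnit_zero_iff] at h0
        have : Subsingleton B := subsingleton_of_zero_eq_one h0
        exact zero_ring hK B _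
      smul_mem' := by
        intro c a ha B _ f hB hca
        refine ha B f hB ?_
        rw [smul_eq_mul, map_mul] at hca
        exact isUnit_of_mul_isUnit_right hca }
  have htop : J = ⊤ := by
    by_contra hne
    obtain ⟨P, hP, hJP⟩ := Ideal.exists_le_maximal J hne
    obtain ⟨s, hs, hs0⟩ := hK.continuity.inj A P k w u (h P)
    apply hs
    apply hJP
    intro B _ f _ hfs
    have h1 : (IsLocalization.Away.lift s (g := f) hfs).comp
        (algebraMap A (Localization.Away s)) = f := IsLocalization.Away.lift_comp s _
    rw [← res_comp_apply hK h1, hs0, map_zero]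
  have h1 : (1 : A) ∈ J := htop ▸ Submodule.mem_top
  have h2 := h1 A (RingHom.id A) hA (by simp)
  rwa [hK.functorial.id] at h2

omit hK in
/-- The localisation of an absolutely flat ring at a maximal ideal is the residue field. -/
theorem exists_residue {A : Type} [CommRing A] (hA : VNR A) {E : Type} [CommRing E]
    [IsDomain E] (π : A →+* E) (hπ : Function.Surjective π) [(RingHom.ker π).IsPrime] :
    ∃ θ : Localization.AtPrime (RingHom.ker π) ≃+* E,
      (θ : Localization.AtPrime (RingHom.ker π) →+* E).comp
        (algebraMap A (Localization.AtPrime (RingHom.ker π))) = π := by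
  have hu : ∀ y : (RingHom.ker π).primeCompl, IsUnit (π y) := by
    rintro ⟨s, hs⟩
    obtain ⟨b, hb⟩ := hA s
    have hs0 : π s ≠ 0 := fun h => hs h
    refine IsUnit.of_mul_eq_one (π b) ?_
    apply mul_left_cancel₀ hs0
    rw [mul_one, ← mul_assoc, ← map_mul, ← map_mul, hb]
  let g : Localization.AtPrime (RingHom.ker π) →+* E := IsLocalization.lift hu
  have hg : g.comp (algebraMap A (Localization.AtPrime (RingHom.ker π))) = π :=
    IsLocalization.lift_comp hu
  have hgb : Function.Bijective g := by
    constructor
    · rw [injective_iff_map_eq_zero]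
      intro x hx
      obtain ⟨⟨a, s⟩, rfl⟩ := IsLocalization.mk'_surjective (RingHom.ker π).primeCompl x
      have h1 : π a = 0 := by
        have h2 := congrArg g (IsLocalization.mk'_spec (Localization.AtPrime (RingHom.ker π)) a s)
        rw [map_mul, hx, zero_mul] at h2
        have h3 : g (algebraMap A _ a) = π a := RingHom.congr_fun hg a
        rw [← h3]
        exact h2.symm
      obtain ⟨b, hb⟩ := hA a
      rw [IsLocalization.mk'_eq_zero_iff]
      refine ⟨⟨1 - a * b, ?_⟩, ?_⟩
      · intro hmem
        have h4 : π (1 - a * b) = 0 := hmem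
        rw [map_sub, map_mul, h1, zero_mul, map_one, sub_zero] at h4
        exact one_ne_zero h4
      · show (1 - a * b) * a = 0
        linear_combination -hb
    · intro y
      obtain ⟨a, rfl⟩ := hπ y
      exact ⟨algebraMap A _ a, RingHom.congr_fun hg a⟩
  exact ⟨RingEquiv.ofBijective g hgb, hg⟩

/-- Every class of a residue field of an absolutely flat ring lifts. -/
theorem res_surjective {A : Type} [CommRing A] (hA : VNR A) {E : Type} [Field E]
    (π : A →+* E) (hπ : Function.Surjective π) (k w : ℤ) :
    Function.Surjective (T.res π k w) := by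
  intro v
  have hprime : (RingHom.ker π).IsPrime := RingHom.ker_isPrime π
  obtain ⟨θ, hθ⟩ := exists_residue hA π hπ
  obtain ⟨v', rfl⟩ := (res_bijective hK θ k w).2 v
  obtain ⟨s, hs, f, hf, u, rfl⟩ := hK.continuity.surj A (RingHom.ker π) k w v'
  obtain ⟨b, hb⟩ := hA s
  have he : (s * b) * (s * b) = s * b := by linear_combination b * hb
  -- the map from `A[1/s]` to `A / (1 - e)`
  have hunit : IsUnit (qm A (1 - s * b) s) := by
    refine IsUnit.of_mul_eq_one (qm A (1 - s * b) b) ?_
    rw [← map_mul, ← map_one (qm A (1 - s * b)), ← sub_eq_zero, ← map_sub]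
    exact qm_eq_zero A _ _ ⟨-1, by ring⟩
  let g : Localization.Away s →+* A ⧸ Ideal.span {1 - s * b} := IsLocalization.Away.lift s hunit
  have hg : g.comp (algebraMap A (Localization.Away s)) = qm A (1 - s * b) :=
    IsLocalization.Away.lift_comp s hunit
  obtain ⟨x, hx⟩ := lift_class hK A he (T.res g k w u)
  -- the map from `A / (1 - e)` to the localisation
  have hs1 : algebraMap A (Localization.AtPrime (RingHom.ker π)) (1 - s * b) = 0 := by
    have h1 : IsUnit (algebraMap A (Localization.AtPrime (RingHom.ker π)) s) :=
      IsLocalization.map_units _ (⟨s, hs⟩ : (RingHom.ker π).primeCompl)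
    have h2 : algebraMap A (Localization.AtPrime (RingHom.ker π)) s *
        algebraMap A (Localization.AtPrime (RingHom.ker π)) (1 - s * b) = 0 := by
      rw [← map_mul, show s * (1 - s * b) = 0 by linear_combination -hb, map_zero]
    exact (h1.mul_right_eq_zero).1 h2
  let q : A ⧸ Ideal.span {1 - s * b} →+* Localization.AtPrime (RingHom.ker π) :=
    Ideal.Quotient.lift _ (algebraMap A (Localization.AtPrime (RingHom.ker π))) (by
      intro a ha
      rw [Ideal.mem_span_singleton] at ha
      obtain ⟨c, rfl⟩ := ha
      rw [map_mul, hs1, zero_mul])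
  have hq : q.comp (qm A (1 - s * b)) = algebraMap A (Localization.AtPrime (RingHom.ker π)) :=
    RingHom.ext fun a => rfl
  have hqg : q.comp g = f := by
    apply IsLocalization.ringHom_ext (Submonoid.powers s)
    rw [RingHom.comp_assoc, hg, hq, hf]
  refine ⟨x, ?_⟩
  rw [← res_comp_apply hK hθ, ← res_comp_apply hK hq, hx, res_comp_apply hK hqg]

/-- If the groups of all residue fields of an absolutely flat ring vanish then so does the group
of the ring. -/
theorem vanish_of_residues {A : Type} [CommRing A] (hA : VNR A) (k w : ℤ)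
    (h : ∀ (E : Type) [Field E] (π : A →+* E), Function.Surjective π →
      Subsingleton (T.H (Sp E) k w)) : Subsingleton (T.H (Sp A) k w) := by
  suffices key : ∀ u : T.H (Sp A) k w, u = 0 from ⟨fun u v => by rw [key u, key v]⟩
  intro u
  refine eq_zero_of_local hK u (fun P hP => ?_) hA
  let _ : Field (A ⧸ P) := Ideal.Quotient.field P
  have h1 := h (A ⧸ P) (Ideal.Quotient.mk P) Ideal.Quotient.mk_surjective
  have hker : RingHom.ker (Ideal.Quotient.mk P) = P := Ideal.mk_ker
  have hprime : (RingHom.ker (Ideal.Quotient.mk P)).IsPrime := by rw [hker]; exact hP.isPrime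
  obtain ⟨θ, hθ⟩ := exists_residue hA (Ideal.Quotient.mk P) Ideal.Quotient.mk_surjective
  have h2 : T.res (algebraMap A (Localization.AtPrime (RingHom.ker (Ideal.Quotient.mk P)))) k w u
      = 0 := by
    apply (res_bijective hK θ k w).1
    exact Subsingleton.elim _ _
  have key : ∀ (Q : Ideal A) [Q.IsPrime], Q = P →
      T.res (algebraMap A (Localization.AtPrime Q)) k w u = 0 →
      T.res (algebraMap A (Localization.AtPrime P)) k w u = 0 := by
    intro Q _ hQ hu
    subst hQ
    exact hu
  exact key _ hker h2

end Pool.Agent.Helper63.PPF
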