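import Mathlib
import Pool.Agent.Helper63.PPF.Ring

/-! Many independent classes over a product. -/

set_option autoImplicit false

open AlgebraicGeometry CategoryTheory Cardinal Pool.Agent.Helper19.BS

namespace Pool.Agent.Helper63.PPF

/-! ### An almost disjoint family of sequences -/

/-- the branch through the binary tree given by `α` -/
def branch (α : ℕ → Bool) (n : ℕ) : ℕ := 2 ^ n + Nat.ofBits (fun j : Fin n => α j)

theorem branch_lt (α : ℕ → Bool) (n : ℕ) : branch α n < 2 ^ (n + 1) := by
  have := Nat.ofBits_lt_two_pow (fun j : Fin n => α j)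
  unfold branch
  rw [pow_succ]
  omega

theorem le_branch (α : ℕ → Bool) (n : ℕ) : 2 ^ n ≤ branch α n := Nat.le_add_right _ _

theorem self_le_branch (α : ℕ → Bool) (n : ℕ) : n ≤ branch α n :=
  (Nat.lt_two_pow_self).le.trans (le_branch α n)

theorem eq_of_branch {α β : ℕ → Bool} {m n : ℕ} (h : branch α m = branch β n) : m = n := by
  by_contra hne
  rcases lt_or_gt_of_ne hne with hlt | hlt
  · have h1 := (branch_lt α m).trans_le ((Nat.pow_le_pow_right (by norm_num) hlt).trans
      (le_branch β n))
    omega
  · have h1 := (branch_lt β n).trans_le ((Nat.pow_le_pow_right (by norm_num) hlt).trans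
      (le_branch α m))
    omega

theorem branch_injective (α : ℕ → Bool) : Function.Injective (branch α) :=
  fun _ _ h => eq_of_branch h

/-- Two different branches have only finitely many points in common. -/
theorem branch_disjoint {α β : ℕ → Bool} {d : ℕ} (hd : α d ≠ β d) {m n : ℕ} (hn : d < n) :
    branch α m ≠ branch β n := by
  intro h
  have hmn := eq_of_branch h
  subst hmn
  unfold branch at h
  have h1 : Nat.ofBits (fun j : Fin m => α j) = Nat.ofBits (fun j : Fin m => β j) := by omega
  have h2 := congrArg (fun a => a.testBit d) h1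
  simp only [Nat.testBit_ofBits_lt _ _ hn] at h2
  exact hd h2

/-! ### Independent classes -/

variable {T : MotTheory} (hK : KTheoretic T)

include hK

/-- A class of a residue field lifts to a class which is supported on a given idempotent. -/
theorem lift_supported {A : Type} [CommRing A] (hA : VNR A) {E : Type} [Field E] (ρ : A →+* E)
    (hρ : Function.Surjective ρ) {e : A} (he : e * e = e) (h1 : ρ e = 1) (k w : ℤ)
    (v : T.H (Sp E) k w) : ∃ a : T.H (Sp A) k w, T.res ρ k w a = v ∧
      ∀ (B : Type) [CommRing B] (f : A →+* B), f e = 0 → T.res f k w a = 0 := by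
  obtain ⟨a', ha'⟩ := res_surjective hK hA ρ hρ k w v
  obtain ⟨a, ha⟩ := (split hK A he k w).2 (T.res (qm A (1 - e)) k w a', 0)
  have ha1 : T.res (qm A (1 - e)) k w a = T.res (qm A (1 - e)) k w a' := congrArg Prod.fst ha
  have ha2 : T.res (qm A e) k w a = 0 := congrArg Prod.snd ha
  refine ⟨a, ?_, fun B _ f hf => ?_⟩
  · let g : A ⧸ Ideal.span {1 - e} →+* E := Ideal.Quotient.lift _ ρ (by
      intro x hx
      rw [Ideal.mem_span_singleton] at hx
      obtain ⟨c, rfl⟩ := hx
      rw [map_mul, map_sub, map_one, h1, sub_self, zero_mul])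
    have hg : g.comp (qm A (1 - e)) = ρ := RingHom.ext fun x => rfl
    rw [← res_comp_apply hK hg, ha1, res_comp_apply hK hg, ha']
  · let g : A ⧸ Ideal.span {e} →+* B := Ideal.Quotient.lift _ f (by
      intro x hx
      rw [Ideal.mem_span_singleton] at hx
      obtain ⟨c, rfl⟩ := hx
      rw [map_mul, hf, zero_mul])
    have hg : g.comp (qm A e) = f := RingHom.ext fun x => rfl
    rw [← res_comp_apply hK hg, ha2, map_zero]

/-- Separated residue fields with nonzero groups give independent classes. -/
theorem card_le_rank {A : Type} [CommRing A] (hA : VNR A) {S : Type} (E : S → Type)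
    [∀ s, Field (E s)] (ρ : ∀ s, A →+* E s) (hρ : ∀ s, Function.Surjective (ρ s)) (e : S → A)
    (he : ∀ s, e s * e s = e s) (h1 : ∀ s, ρ s (e s) = 1) (h0 : ∀ s t, s ≠ t → ρ t (e s) = 0)
    (k w : ℤ) (hne : ∀ s, ¬ Subsingleton (T.H (Sp (E s)) k w)) :
    #S ≤ Module.rank ℚ (T.H (Sp A) k w) := by
  classical
  have hv : ∀ s, ∃ v : T.H (Sp (E s)) k w, v ≠ 0 := by
    intro s
    have : Nontrivial (T.H (Sp (E s)) k w) := not_subsingleton_iff_nontrivial.1 (hne s)
    exact exists_ne 0
  choose v hv using hv
  choose a ha1 ha2 using fun s => lift_supported hK hA (ρ s) (hρ s) (he s) (h1 s) k w (v s)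
  have hli : LinearIndependent ℚ a := by
    rw [linearIndependent_iff']
    intro t g hg s hs
    have h2 := congrArg (T.res (ρ s) k w) hg
    rw [map_sum, map_zero, Finset.sum_eq_single s] at h2
    · rw [map_smul, ha1] at h2
      exact (smul_eq_zero.1 h2).resolve_right (hv s)
    · intro b _ hb
      rw [map_smul, ha2 b (E s) (ρ s) (h0 b s hb), smul_zero]
    · intro h
      exact absurd hs h
  exact hli.cardinal_le_rank

end Pool.Agent.Helper63.PPF
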