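import Mathlib
import Pool.Agent.Helper19.BS.Final
import Pool.Agent.Helper26.BSU.Points
import Pool.Agent.Helper63.PPF.Indep

/-! The product of all prime fields detects the vanishing of motivic cohomology over fields of
characteristic zero. -/

set_option autoImplicit false

open AlgebraicGeometry CategoryTheory Filter Cardinal Pool.Agent.Helper19.BS
  Pool.Agent.Helper26.BSU

namespace Pool.Agent.Helper63.PPF

local instance factPrime (p : Nat.Primes) : Fact (p : ℕ).Prime := ⟨p.2⟩

/-! ### Residue fields of products of fields -/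

theorem charP_of_cast (F : Type) [Field F] {p : ℕ} (hp : p.Prime) (h : (p : F) = 0) :
    CharP F p := by
  have h1 : ringChar F ∣ p := ringChar.dvd h
  rcases (Nat.dvd_prime hp).1 h1 with h2 | h2
  · have := CharP.ringChar_ne_one (R := F)
    exact absurd h2 this
  · rw [← h2]; infer_instance

/-- A residue field of positive characteristic of a product of fields is one of the factors. -/
theorem residue_class {I : Type} (F : I → Type) [∀ i, Field (F i)]
    (hfin : ∀ p : ℕ, p.Prime → {i | CharP (F i) p}.Finite) {E : Type} [Field E]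
    (π : (∀ i, F i) →+* E) (hπ : Function.Surjective π) :
    CharZero E ∨ ∃ (i : I) (θ : F i →+* E), Function.Surjective θ := by
  classical
  obtain ⟨p, hp⟩ := CharP.exists E
  rcases CharP.char_is_prime_or_zero E p with hpp | rfl
  · right
    have hV := hfin p hpp
    -- an index with `π δ_i ≠ 0`
    have hsum : ∃ i, π (Pi.single i 1) ≠ 0 := by
      by_contra hcon
      push Not at hcon
      let e : ∀ i, F i := ∑ i ∈ hV.toFinset, Pi.single i 1
      have he : π e = 0 := by
        rw [map_sum]
        exact Finset.sum_eq_zero fun i _ => hcon i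
      let c : ∀ i, F i := fun i => if CharP (F i) p then 0 else ((p : F i))⁻¹
      have h1 : (1 : ∀ i, F i) = e + (p : ∀ i, F i) * c := by
        funext i
        have hei : e i = if CharP (F i) p then 1 else 0 := by
          simp only [e, Finset.sum_apply]
          by_cases hi : CharP (F i) p
          · rw [if_pos hi, Finset.sum_eq_single i]
            · rw [Pi.single_eq_same]
            · intro b _ hb
              exact Pi.single_eq_of_ne (fun h => hb h.symm) _
            · intro h
              exact absurd (hV.mem_toFinset.2 hi) h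
          · rw [if_neg hi]
            refine Finset.sum_eq_zero fun j hj => ?_
            refine Pi.single_eq_of_ne (fun h => ?_) _
            subst h
            exact hi (hV.mem_toFinset.1 hj)
        rw [Pi.one_apply, Pi.add_apply, Pi.mul_apply, hei]
        simp only [c]
        by_cases hi : CharP (F i) p
        · rw [if_pos hi, if_pos hi]; ring
        · rw [if_neg hi, if_neg hi, zero_add]
          have h0 : ((p : ∀ i, F i) i) = (p : F i) := rfl
          rw [h0, mul_inv_cancel₀]
          intro h2
          exact hi (charP_of_cast (F i) hpp h2)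
      have h2 : π 1 = 0 := by
        rw [h1, map_add, map_mul, he, map_natCast, CharP.cast_eq_zero, zero_mul, add_zero]
      rw [map_one] at h2
      exact one_ne_zero h2
    obtain ⟨i, hi⟩ := hsum
    have hone : π (Pi.single i 1) = 1 := by
      have h1 : π (Pi.single i 1) * π (Pi.single i 1) = π (Pi.single i 1) := by
        rw [← map_mul, ← Pi.single_mul, one_mul]
      exact (mul_eq_left₀ hi).1 h1
    refine ⟨i, { toFun := fun x => π (Pi.single i x), map_one' := hone, map_mul' := ?_,
                 map_zero' := ?_, map_add' := ?_ }, ?_⟩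
    · intro x y
      rw [← map_mul, ← Pi.single_mul]
    · rw [Pi.single_zero, map_zero]
    · intro x y
      rw [← map_add, ← Pi.single_add]
    · intro y
      obtain ⟨a, rfl⟩ := hπ y
      refine ⟨a i, ?_⟩
      show π (Pi.single i (a i)) = π a
      have h1 : (Pi.single i (a i) : ∀ i, F i) = a * Pi.single i 1 := by
        funext j
        rw [Pi.mul_apply]
        by_cases hj : j = i
        · subst hj; rw [Pi.single_eq_same, Pi.single_eq_same, mul_one]
        · rw [Pi.single_eq_of_ne hj, Pi.single_eq_of_ne hj, mul_zero]
      rw [h1, map_mul, hone, mul_one]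
  · left
    exact CharP.charP_to_charZero E

theorem overFinite_of_surj {F E : Type} [Field F] [Field E] (h : OverFinite F) (θ : F →+* E)
    (hθ : Function.Surjective θ) : OverFinite E := by
  intro y
  obtain ⟨x, rfl⟩ := hθ y
  obtain ⟨K, hK, hx⟩ := h x
  refine ⟨K.map θ, ?_, ⟨x, hx, rfl⟩⟩
  have h1 : ((K.map θ : Subfield E) : Set E) = θ '' (K : Set F) := Subfield.coe_map _ _
  have h2 : (θ '' (K : Set F)).Finite := Set.Finite.image θ (Set.toFinite (K : Set F))
  rw [← h1] at h2
  exact h2.to_subtype

theorem overFinite_of_finite (F : Type) [Field F] [Finite F] : OverFinite F :=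
  fun x => ⟨⊤, inferInstance, Subfield.mem_top x⟩

theorem overFinite_closure (p : ℕ) [Fact p.Prime] : OverFinite (AlgebraicClosure (ZMod p)) := by
  intro x
  have hx : IsIntegral (ZMod p) x := Algebra.IsIntegral.isIntegral x
  refine ⟨(IntermediateField.adjoin (ZMod p) {x}).toSubfield, ?_,
    IntermediateField.mem_adjoin_simple_self _ x⟩
  have := IntermediateField.adjoin.finiteDimensional hx
  exact Module.finite_of_finite (ZMod p) (M := IntermediateField.adjoin (ZMod p) {x})

/-! ### Restriction to a sequence of factors -/

/-- restriction to a subfamily -/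
def restrict {I : Type} (F : I → Type) [∀ i, Field (F i)] (j : ℕ → I) :
    (∀ i, F i) →+* (∀ n, F (j n)) where
  toFun x n := x (j n)
  map_one' := rfl
  map_mul' _ _ := rfl
  map_zero' := rfl
  map_add' _ _ := rfl

theorem restrict_surjective {I : Type} (F : I → Type) [∀ i, Field (F i)] (j : ℕ → I)
    (hj : Function.Injective j) : Function.Surjective (restrict F j) := by
  classical
  intro y
  let x : ∀ i, F i := fun i => if h : ∃ n, j n = i then h.choose_spec ▸ y h.choose else 0
  refine ⟨x, funext fun n => ?_⟩
  show x (j n) = y n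
  have h : ∃ m, j m = j n := ⟨n, rfl⟩
  have key : ∀ (m : ℕ) (e : j m = j n), (e ▸ y m : F (j n)) = y n := by
    intro m e
    have hm : m = n := hj e
    subst hm
    rfl
  simp only [x, dif_pos h]
  exact key _ _

variable {T : MotTheory} (hT : IsMotivic T) (hK : KTheoretic T)

include hK

/-- The vanishing over all fields of characteristic zero gives the vanishing for products. -/
theorem allProducts_of_vanish (k w : ℤ) (hw : 0 < w) (h : FieldsVanish T k w) :
    AllProducts T k w := by
  intro I F _ hF hfin
  refine vanish_of_residues hK (vnr_pi F) k w fun E _ π hπ => ?_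
  rcases residue_class F hfin π hπ with h0 | ⟨i, θ, hθ⟩
  · exact h E
  · rcases hF i with h1 | h1
    · have : CharZero E := charZero_of_injective_ringHom θ.injective
      exact h E
    · exact hK.quillen E (overFinite_of_surj h1 θ hθ) k w hw

omit hK in
theorem primeProduct_of_all (k w : ℤ) (h : AllProducts T k w) :
    RingVanish T PrimeProduct k w := by
  refine h Nat.Primes (fun p => ZMod p) (fun p => Or.inr (overFinite_of_finite _)) ?_
  intro p _
  refine Set.Finite.subset (Set.Finite.preimage (Nat.Primes.coe_nat_injective.injOn)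
    (Set.finite_singleton p)) ?_
  intro q hq
  have h1 : CharP (ZMod (q : ℕ)) p := hq
  exact CharP.eq (ZMod (q : ℕ)) (ZMod.charP (q : ℕ)) h1

omit hK in
theorem closed_of_all (k w : ℤ) (h : AllProducts T k w) : SomeClosedProduct T k w := by
  have hfin : ∀ p : ℕ, p.Prime →
      {q : Nat.Primes | CharP (AlgebraicClosure (ZMod (q : ℕ))) p}.Finite := by
    intro p _
    refine Set.Finite.subset (Set.Finite.preimage (Nat.Primes.coe_nat_injective.injOn)
      (Set.finite_singleton p)) ?_
    intro q hq
    have : Fact (q : ℕ).Prime := ⟨q.2⟩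
    have h1 : CharP (AlgebraicClosure (ZMod (q : ℕ))) p := hq
    have h2 : CharP (AlgebraicClosure (ZMod (q : ℕ))) q :=
      charP_of_injective_algebraMap (algebraMap (ZMod (q : ℕ)) _).injective q
    exact CharP.eq _ h2 h1
  refine ⟨Nat.Primes, fun q => AlgebraicClosure (ZMod (q : ℕ)), fun q => inferInstance,
    ⟨inferInstance, fun q => inferInstance, hfin⟩, ?_⟩
  exact h Nat.Primes (fun q => AlgebraicClosure (ZMod (q : ℕ)))
    (fun q => Or.inr (overFinite_closure q)) hfin

/-- A product surjects onto every ultraproduct of a sequence of its factors; all classes lift. -/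
theorem res_onto {I : Type} (F : I → Type) [∀ i, Field (F i)] (j : ℕ → I)
    (hj : Function.Injective j) {K : Type} [Field K] (π : (∀ n, F (j n)) →+* K)
    (hπ : Function.Surjective π) (k w : ℤ) :
    Function.Surjective (T.res (π.comp (restrict F j)) k w) :=
  res_surjective hK (vnr_pi F) _ (hπ.comp (restrict_surjective F j hj)) k w

include hT

/-- If a field with nonzero cohomology is a limit of a sequence of factors of a product of fields
then the cohomology of the product has dimension at least the continuum. -/
theorem rank_of_sequence {I : Type} (F : I → Type) [∀ i, Field (F i)] (j : ℕ → I)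
    (hj : Function.Injective j) (hlarge : CharLarge fun n => F (j n)) {E : Type} [Field E]
    [CharZero E] [Countable E] (S : ℕ → Finset E) (hS : ∀ x, ∃ i₀, ∀ i, i₀ ≤ i → x ∈ S i)
    (φ : ∀ n, Nonempty (Subring.closure (S n : Set E) →+* F (j n))) (k w : ℤ)
    (h : ¬ Subsingleton (T.H (Sp E) k w)) : 𝔠 ≤ Module.rank ℚ (T.H (Sp (∀ i, F i)) k w) := by
  classical
  have hU : ((hyperfilter ℕ : Ultrafilter ℕ) : Filter ℕ) ≤ atTop := Nat.hyperfilter_le_atTop
  have hex : ∀ α : ℕ → Bool, ∃ (K : Type) (_ : Field K) (π : (∀ n, F (j (branch α n))) →+* K),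
      IsUltraproduct (hyperfilter ℕ) (fun n => F (j (branch α n))) K π ∧
        ¬ Subsingleton (T.H (Sp K) k w) := by
    intro α
    obtain ⟨K, _, π, hKU⟩ := exists_ultraproduct (hyperfilter ℕ) (fun n => F (j (branch α n)))
    have hl : CharLarge fun n => F (j (branch α n)) := by
      intro n
      obtain ⟨i₀, hi₀⟩ := hlarge n
      exact ⟨i₀, fun i hi => hi₀ _ (hi.trans (self_le_branch α i))⟩
    have hK0 : CharZero K := hKU.charZero hU hl
    have hS' : ∀ x, ∃ i₀, ∀ i, i₀ ≤ i → x ∈ S (branch α i) := by
      intro x
      obtain ⟨i₀, hi₀⟩ := hS x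
      exact ⟨i₀, fun i hi => hi₀ _ (hi.trans (self_le_branch α i))⟩
    obtain ⟨f⟩ := exists_hom_of_finset (fun n => S (branch α n)) hS' hKU hU
      (fun n => φ (branch α n))
    exact ⟨K, inferInstance, π, hKU, fun hs => h (sub_of_hom hT f hs)⟩
  choose K inst π hKU hne using hex
  let e : (ℕ → Bool) → ∀ i, F i := fun α i => if ∃ n, j (branch α n) = i then 1 else 0
  let ρ : ∀ α, (∀ i, F i) →+* K α := fun α => (π α).comp (restrict F fun n => j (branch α n))
  have hρ : ∀ α, Function.Surjective (ρ α) := fun α =>
    (hKU α).1.comp (restrict_surjective F _ (hj.comp (branch_injective α)))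
  have he : ∀ α, e α * e α = e α := by
    intro α
    funext i
    simp only [e, Pi.mul_apply]
    split_ifs <;> simp
  have h1 : ∀ α, ρ α (e α) = 1 := by
    intro α
    have h2 : restrict F (fun n => j (branch α n)) (e α) = 1 := by
      funext n
      show e α (j (branch α n)) = 1
      simp only [e]
      rw [if_pos ⟨n, rfl⟩]
    show π α (restrict F (fun n => j (branch α n)) (e α)) = 1
    rw [h2, map_one]
  have h0 : ∀ α β, α ≠ β → ρ β (e α) = 0 := by
    intro α β hαβ
    obtain ⟨d, hd⟩ := Function.ne_iff.1 hαβ
    show π β (restrict F (fun n => j (branch β n)) (e α)) = 0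
    rw [(hKU β).2]
    refine hU ((eventually_gt_atTop d).mono fun n hn => ?_)
    show e α (j (branch β n)) = 0
    simp only [e]
    rw [if_neg]
    rintro ⟨m, hm⟩
    exact branch_disjoint hd hn (hj hm)
  have key := card_le_rank hK (vnr_pi F) K ρ hρ e he h1 h0 k w hne
  simpa using key

/-- If a product of fields has small cohomology then the cohomology of the fields which are limits
of sequences of factors vanishes. -/
theorem sub_of_sequence {I : Type} (F : I → Type) [∀ i, Field (F i)] (j : ℕ → I)
    (hj : Function.Injective j) (hlarge : CharLarge fun n => F (j n)) {E : Type} [Field E]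
    [CharZero E] [Countable E] (S : ℕ → Finset E) (hS : ∀ x, ∃ i₀, ∀ i, i₀ ≤ i → x ∈ S i)
    (φ : ∀ n, Nonempty (Subring.closure (S n : Set E) →+* F (j n))) (k w : ℤ)
    (h : RingSmall T (∀ i, F i) k w) : Subsingleton (T.H (Sp E) k w) := by
  by_contra hcon
  exact absurd (rank_of_sequence hT hK F j hj hlarge S hS φ k w hcon) (not_le.2 h)

omit hT hK in
theorem small_of_vanish (A : Type) [CommRing A] (k w : ℤ) (h : RingVanish T A k w) :
    RingSmall T A k w := by
  have : Subsingleton (T.H (Sp A) k w) := h
  unfold RingSmall
  rw [rank_subsingleton']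
  exact lt_of_lt_of_le Cardinal.aleph0_pos Cardinal.aleph0_le_continuum

/-- The product of all prime fields detects the vanishing. -/
theorem vanish_of_primeProduct (k w : ℤ) (h : RingSmall T PrimeProduct k w) :
    FieldsVanish T k w := by
  intro L _ _
  apply sub_of_fg hT
  intro E _ _ _
  have := countable_of_ess E
  obtain ⟨S, hS⟩ := exists_finsets E
  have hfreq : ∀ n, ∃ᶠ q in atTop, ∃ _ : Nat.Prime q,
      Nonempty (Subring.closure (S n : Set E) →+* ZMod q) := by
    intro n
    rw [frequently_atTop]
    intro m
    obtain ⟨p, hp, hmp, hφ⟩ := exists_prime_point E (S n) m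
    exact ⟨p, hmp, hp.out, hφ⟩
  obtain ⟨r, hr, hφ⟩ := extraction_forall_of_frequently hfreq
  choose hr1 hr2 using hφ
  let j : ℕ → Nat.Primes := fun n => ⟨r n, hr1 n⟩
  have hj : Function.Injective j := by
    intro a b hab
    exact hr.injective (congrArg (fun q : Nat.Primes => (q : ℕ)) hab)
  refine sub_of_sequence hT hK (fun p : Nat.Primes => ZMod p) j hj ?_ S hS hr2 k w h
  intro n
  refine ⟨n, fun i hi => Or.inr ?_⟩
  show n ≤ ringChar (ZMod (r i))
  rw [ZMod.ringChar_zmod_n]
  exact hi.trans (hr.id_le i)

omit hT hK in
theorem finite_small {I : Type} {F : I → Type} [∀ i, Field (F i)]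
    (hfin : ∀ p : ℕ, p.Prime → {i | CharP (F i) p}.Finite) (n : ℕ) :
    {i | ¬ (ringChar (F i) = 0 ∨ n ≤ ringChar (F i))}.Finite := by
  have h1 : (⋃ p ∈ {p : ℕ | p < n ∧ p.Prime}, {i | CharP (F i) p}).Finite := by
    refine Set.Finite.biUnion ((Set.finite_Iio n).subset fun p hp => hp.1) ?_
    intro p hp
    exact hfin p hp.2
  refine h1.subset fun i hi => ?_
  simp only [Set.mem_ofPred_eq, not_or, not_le] at hi
  have h2 : (ringChar (F i)).Prime := by
    rcases CharP.char_is_prime_or_zero (F i) (ringChar (F i)) with h | h
    · exact h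
    · exact absurd h hi.1
  simp only [Set.mem_iUnion]
  exact ⟨ringChar (F i), ⟨hi.2, h2⟩, ringChar.charP _⟩

omit hT hK in
theorem charLarge_of_family {I : Type} {F : I → Type} [∀ i, Field (F i)]
    (hfin : ∀ p : ℕ, p.Prime → {i | CharP (F i) p}.Finite) (e : ℕ → I)
    (he : Function.Injective e) : CharLarge fun n => F (e n) := by
  intro n
  have h1 := (finite_small hfin n).preimage he.injOn
  obtain ⟨b, hb⟩ := h1.bddAbove
  refine ⟨b + 1, fun i hi => ?_⟩
  by_contra hcon
  have h2 := hb (show i ∈ e ⁻¹' _ from hcon)
  omega

/-- One product of algebraically closed fields detects the vanishing. -/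
theorem vanish_of_closed (k w : ℤ) (h : SmallClosedProduct T k w) : FieldsVanish T k w := by
  obtain ⟨I, F, _, ⟨hI, hcl, hfin⟩, hv⟩ := h
  intro L _ _
  apply sub_of_fg hT
  intro E _ _ _
  have := countable_of_ess E
  obtain ⟨S, hS⟩ := exists_finsets E
  choose m hm using fun n => exists_closed_point E (S n)
  let e : ℕ → I := Infinite.natEmbedding I
  have he : Function.Injective e := (Infinite.natEmbedding I).injective
  have hlarge := charLarge_of_family hfin e he
  have hev : ∀ n, ∀ᶠ i in atTop, Nonempty (Subring.closure (S n : Set E) →+* F (e i)) := by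
    intro n
    obtain ⟨i₀, hi₀⟩ := hlarge (m n)
    refine (eventually_ge_atTop i₀).mono fun i hi => ?_
    have := hcl (e i)
    exact hm n (F (e i)) (hi₀ i hi)
  obtain ⟨r, hr, hφ⟩ := extraction_forall_of_eventually hev
  refine sub_of_sequence hT hK F (fun n => e (r n)) (he.comp hr.injective) ?_ S hS hφ k w hv
  exact charLarge_of_family hfin (fun n => e (r n)) (he.comp hr.injective)

/-- The equivalent conditions in a fixed degree and a fixed positive weight. -/
theorem tfae_product (k w : ℤ) (hw : 0 < w) : List.TFAE
    [FieldsVanish T k w, AllProducts T k w, RingVanish T PrimeProduct k w,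
      RingSmall T PrimeProduct k w, SomeClosedProduct T k w, SmallClosedProduct T k w] := by
  tfae_have 1 → 2 := allProducts_of_vanish hK k w hw
  tfae_have 2 → 3 := primeProduct_of_all k w
  tfae_have 3 → 4 := small_of_vanish _ k w
  tfae_have 4 → 1 := vanish_of_primeProduct hT hK k w
  tfae_have 2 → 5 := closed_of_all k w
  tfae_have 5 → 6 := by
    rintro ⟨I, F, inst, hF, hv⟩
    exact ⟨I, F, inst, hF, small_of_vanish _ k w hv⟩
  tfae_have 6 → 1 := vanish_of_closed hT hK k w
  tfae_finish

end Pool.Agent.Helper63.PPF
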