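import Mathlib
import Pool.Agent.Helper63.PPF.Main

/-! Products with small cohomology, and the Beilinson-Soule vanishing. -/

set_option autoImplicit false

open AlgebraicGeometry CategoryTheory Filter Cardinal Pool.Agent.Helper19.BS
  Pool.Agent.Helper26.BSU

namespace Pool.Agent.Helper63.PPF

/-! ### The size of ultraproducts -/

/-- the number of binary digits which we use in the field `E` -/
noncomputable def digits (E : Type) [Field E] (n : ℕ) : ℕ :=
  if ringChar E = 0 then n else Nat.log 2 (ringChar E)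

theorem cast_inj_digits (E : Type) [Field E] (n : ℕ) {a b : ℕ} (ha : a < 2 ^ digits E n)
    (hb : b < 2 ^ digits E n) (h : (a : E) = b) : a = b := by
  unfold digits at ha hb
  by_cases h0 : ringChar E = 0
  · have h1 : CharP E 0 := by rw [← h0]; exact ringChar.charP E
    have : CharZero E := CharP.charP_to_charZero E
    exact Nat.cast_injective h
  · rw [if_neg h0] at ha hb
    have h1 : 2 ^ Nat.log 2 (ringChar E) ≤ ringChar E := Nat.pow_log_le_self 2 h0
    exact CharP.natCast_injOn_Iio E (ringChar E) (ha.trans_le h1) (hb.trans_le h1) h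

section ultra

variable {U : Ultrafilter ℕ} {F : ℕ → Type} [∀ i, Field (F i)] {K : Type} [Field K]
  {π : (∀ i, F i) →+* K}

theorem digits_large (hF : CharLarge F) (j : ℕ) : ∃ i₀, ∀ i, i₀ ≤ i → j < digits (F i) i := by
  obtain ⟨i₀, hi₀⟩ := hF (2 ^ (j + 1))
  refine ⟨max i₀ (j + 1), fun i hi => ?_⟩
  unfold digits
  by_cases h0 : ringChar (F i) = 0
  · rw [if_pos h0]
    exact Nat.lt_of_succ_le ((le_max_right _ _).trans hi)
  · rw [if_neg h0]
    rcases hi₀ i ((le_max_left _ _).trans hi) with h1 | h1
    · exact absurd h1 h0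
    · exact Nat.lt_of_succ_le ((Nat.le_log_iff_pow_le (by norm_num) h0).2 h1)

/-- The ultraproduct has at least continuum many elements. -/
theorem continuum_le (h : IsUltraproduct U F K π) (hU : (U : Filter ℕ) ≤ atTop)
    (hF : CharLarge F) : 𝔠 ≤ #K := by
  let x : (ℕ → Bool) → ∀ i, F i := fun f i =>
    ((Nat.ofBits (fun j : Fin (digits (F i) i) => f j) : ℕ) : F i)
  have hinj : Function.Injective fun f => π (x f) := by
    intro f g hfg
    have hfg' : π (x f) = π (x g) := hfg
    rw [h.eq_iff] at hfg'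
    funext j
    obtain ⟨i₀, hi₀⟩ := digits_large hF j
    have h2 : ∀ᶠ i in (U : Filter ℕ), i₀ ≤ i := hU (eventually_ge_atTop i₀)
    obtain ⟨i, hi, hi'⟩ := (hfg'.and h2).exists
    have h3 := cast_inj_digits (F i) i (Nat.ofBits_lt_two_pow _) (Nat.ofBits_lt_two_pow _) hi
    have h4 := congrArg (fun m => m.testBit j) h3
    simpa only [Nat.testBit_ofBits_lt _ _ (hi₀ i hi')] using h4
  have h1 := Cardinal.mk_le_of_injective hinj
  simpa using h1

/-- The ultraproduct has transcendence degree at least the continuum. -/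
theorem continuum_le_trdeg (h : IsUltraproduct U F K π) (hU : (U : Filter ℕ) ≤ atTop)
    (hF : CharLarge F) [CharZero K] : 𝔠 ≤ Algebra.trdeg ℚ K := by
  by_contra hlt
  push Not at hlt
  obtain ⟨B, hB⟩ := exists_isTranscendenceBasis ℚ K
  rw [← hB.cardinalMk_eq_trdeg] at hlt
  have h2 : Algebra.IsAlgebraic (Algebra.adjoin ℚ (Set.range ((↑) : B → K))) K := hB.isAlgebraic
  have h3 : Cardinal.mk (Algebra.adjoin ℚ (Set.range ((↑) : B → K))) < 𝔠 := by
    refine (Algebra.cardinalMk_adjoin_le ℚ _).trans_lt ?_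
    rw [Subtype.range_coe]
    refine max_lt (max_lt ?_ hlt) aleph0_lt_continuum
    simpa using aleph0_lt_continuum
  have h4 := Algebra.IsAlgebraic.cardinalMk_le_max
    (Algebra.adjoin ℚ (Set.range ((↑) : B → K))) K
  have h5 : #K < 𝔠 := h4.trans_lt (max_lt h3 aleph0_lt_continuum)
  exact absurd (continuum_le h hU hF) (not_le.2 h5)

end ultra

variable {T : MotTheory} (hT : IsMotivic T) (hK : KTheoretic T)

include hK

/-- The ultraproduct of a sequence of factors inherits the bound on the dimension. -/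
theorem exists_small {I : Type} (F : I → Type) [∀ i, Field (F i)] (hI : Infinite I)
    (hfin : ∀ p : ℕ, p.Prime → {i | CharP (F i) p}.Finite) (k w : ℤ)
    (hv : RingSmall T (∀ i, F i) k w) :
    ∃ (K : Type) (_ : Field K) (_ : CharZero K), 𝔠 ≤ Algebra.trdeg ℚ K ∧
      Module.rank ℚ (T.H (Sp K) k w) < 𝔠 := by
  let e : ℕ → I := Infinite.natEmbedding I
  have he : Function.Injective e := (Infinite.natEmbedding I).injective
  have hlarge := charLarge_of_family hfin e he
  have hU : ((hyperfilter ℕ : Ultrafilter ℕ) : Filter ℕ) ≤ atTop := Nat.hyperfilter_le_atTop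
  obtain ⟨K, _, π, hKU⟩ := exists_ultraproduct (hyperfilter ℕ) (fun n => F (e n))
  have hK0 : CharZero K := hKU.charZero hU hlarge
  exact ⟨K, inferInstance, hK0, continuum_le_trdeg hKU hU hlarge,
    (LinearMap.rank_le_of_surjective _ (res_onto hK F e he π hKU.1 k w)).trans_lt hv⟩

include hT

/-- One product of fields whose cohomology in degree `k + 1` and weight `w + 1` has dimension less
than the continuum gives the vanishing in degree `k` and weight `w` over all fields. -/
theorem vanish_of_smallProduct (k w : ℤ) (h : SmallProduct T (k + 1) (w + 1)) :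
    FieldsVanish T k w := by
  obtain ⟨I, F, _, hI, hfin, hv⟩ := h
  obtain ⟨K, _, hK0, htr, hr⟩ := exists_small hK F hI hfin (k + 1) (w + 1) hv
  exact vanish_of_small hT k w ⟨K, inferInstance, hK0,
    aleph0_le_continuum.trans htr, (rank_quotient_le _).trans_lt (hr.trans_le htr)⟩

/-- The Beilinson-Soule vanishing. -/
theorem tfae_bs (P : ∀ X : Scheme.{0}, (X ⟶ Sp ℂ) → Prop) (hP : IsClass P) : List.TFAE
    [ForClass P (BeilinsonSoule T), ForAll (BeilinsonSoule T),
     ∀ w > 0, AllProducts T (-1) w, ∀ w > 0, RingVanish T PrimeProduct (-1) w,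
     ∀ w > 0, RingSmall T PrimeProduct (-1) w, ∀ w > 0, SomeClosedProduct T (-1) w,
     ∀ w > 0, SmallClosedProduct T (-1) w] := by
  have h0 : ForAll (BeilinsonSoule T) ↔ ∀ w : ℤ, w > 0 → FieldsVanish T (-1) w := by
    have h := (tfae_weak hT P hP).out 1 2
    rw [h]
    exact forall₂_congr fun w hw => rigid_iff_vanish hT (-1) w (by norm_num) hw
  tfae_have 1 ↔ 2 := (tfae_weak hT P hP).out 0 1
  tfae_have 2 ↔ 3 := by
    rw [h0]; exact forall₂_congr fun w hw => (tfae_product hT hK (-1) w hw).out 0 1
  tfae_have 2 ↔ 4 := by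
    rw [h0]; exact forall₂_congr fun w hw => (tfae_product hT hK (-1) w hw).out 0 2
  tfae_have 2 ↔ 5 := by
    rw [h0]; exact forall₂_congr fun w hw => (tfae_product hT hK (-1) w hw).out 0 3
  tfae_have 2 ↔ 6 := by
    rw [h0]; exact forall₂_congr fun w hw => (tfae_product hT hK (-1) w hw).out 0 4
  tfae_have 2 ↔ 7 := by
    rw [h0]; exact forall₂_congr fun w hw => (tfae_product hT hK (-1) w hw).out 0 5
  tfae_finish

/-- The strong Beilinson-Soule vanishing. -/
theorem tfae_strongBS (P : ∀ X : Scheme.{0}, (X ⟶ Sp ℂ) → Prop) (hP : IsClass P) : List.TFAE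
    [ForClass P (StrongBeilinsonSoule T), ForAll (StrongBeilinsonSoule T),
     ∀ w > 0, AllProducts T 0 w, ∀ w > 0, RingVanish T PrimeProduct 0 w,
     ∀ w > 0, RingSmall T PrimeProduct 0 w, ∀ w > 0, SomeClosedProduct T 0 w,
     ∀ w > 0, SmallClosedProduct T 0 w] := by
  have h0 : ForAll (StrongBeilinsonSoule T) ↔ ∀ w : ℤ, w > 0 → FieldsVanish T 0 w := by
    have h := (tfae_strong hT P hP).out 1 2
    rw [h]
    exact forall₂_congr fun w hw => rigid_iff_vanish hT 0 w le_rfl hw
  tfae_have 1 ↔ 2 := (tfae_strong hT P hP).out 0 1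
  tfae_have 2 ↔ 3 := by
    rw [h0]; exact forall₂_congr fun w hw => (tfae_product hT hK 0 w hw).out 0 1
  tfae_have 2 ↔ 4 := by
    rw [h0]; exact forall₂_congr fun w hw => (tfae_product hT hK 0 w hw).out 0 2
  tfae_have 2 ↔ 5 := by
    rw [h0]; exact forall₂_congr fun w hw => (tfae_product hT hK 0 w hw).out 0 3
  tfae_have 2 ↔ 6 := by
    rw [h0]; exact forall₂_congr fun w hw => (tfae_product hT hK 0 w hw).out 0 4
  tfae_have 2 ↔ 7 := by
    rw [h0]; exact forall₂_congr fun w hw => (tfae_product hT hK 0 w hw).out 0 5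
  tfae_finish

/-- The Beilinson-Soule vanishing follows if the cohomology of one product of fields in degree
zero is small, for every weight `w ≥ 2`. -/
theorem bs_of_smallProduct (h : ∀ w : ℤ, 2 ≤ w → SmallProduct T 0 w) :
    ForAll (BeilinsonSoule T) := by
  intro F _ _ X f hX
  refine bs_of hT (fun w => ?_) F X f hX
  by_cases hw : 0 < w
  · have h1 := h (w + 1) (by omega)
    exact vanish_of_smallProduct hT hK (-1) w (by simpa using h1) ℂ
  · exact hT.low_weight ℂ (-1) w (by norm_num) (by omega)

/-- The strong Beilinson-Soule vanishing follows if the cohomology of one product of fields in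
degree one is small, for every weight `w ≥ 2`. -/
theorem strong_of_smallProduct (h : ∀ w : ℤ, 2 ≤ w → SmallProduct T 1 w) :
    ForAll (StrongBeilinsonSoule T) := by
  intro F _ _ X f hX
  refine strong_of hT (fun w hw => ?_) F X f hX
  have h1 := h (w + 1) (by omega)
  exact vanish_of_smallProduct hT hK 0 w (by simpa using h1) ℂ

end Pool.Agent.Helper63.PPF
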